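import Pool.Agent.L0h86.JS.Stm
import Pool.Agent.L0h86.JR.KYR

/-!
# Project JS (helper86): the joint law on the regular sets
-/

set_option autoImplicit false
set_option linter.unusedSectionVars false
set_option linter.unusedVariables false
set_option maxHeartbeats 4000000

open scoped Classical

namespace Pool.Agent.L0h86.JS

open Finset
open Pool.Agent.Y703.CX (sm la jj XX)
open Pool.Agent.Y703.CQ (nr sg)
open Pool.Agent.N973.ND (Pr ty uu)
open Pool.Agent.N916.GB (Po HB ps)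
open Pool.Agent.L0h74.EV (Cl)
open Pool.Agent.L0h74.EV.KEY (ph CC mem_CC CC_facts CC_disj sm_fill la_fill im_fill ph_fill inj_fill
  hb_box cls_val)
open Pool.Agent.L0h74.KD.KEY (Bil ps_card cl_prime)
open Pool.Agent.L0h2.P (S_KEYG RK)
open Pool.Agent.L0h86.JR

/-- the symbol of two depends on the class modulo eight -/
theorem nr_two {p q : ℕ} (hp : Pr p) (hq : Pr q) (h : p % 8 = q % 8) : nr p 2 = nr q 2 := by
  have key : ∀ r : ℕ, Pr r → (nr r 2 = 0 ↔ (r % 8 = 1 ∨ r % 8 = 7)) := by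
    intro r hr
    haveI : Fact r.Prime := ⟨hr.1⟩
    have h1 := ZMod.exists_sq_eq_two_iff (p := r) hr.2.1
    unfold nr
    rw [← h1]
    have e : ((2 : ℕ) : ZMod r) = 2 := by norm_num
    rw [e]
    by_cases h2 : IsSquare (2 : ZMod r)
    · rw [if_pos h2]
      exact ⟨fun _ => h2, fun _ => rfl⟩
    · rw [if_neg h2]
      exact ⟨fun h3 => absurd h3 one_ne_zero, fun h3 => absurd h3 h2⟩
  have h01 : ∀ r : ℕ, nr r 2 = 0 ∨ nr r 2 = 1 := by
    intro r
    unfold nr
    split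
    · exact Or.inl rfl
    · exact Or.inr rfl
  have k1 := key p hp
  have k2 := key q hq
  rw [h] at k1
  rcases h01 p with h2 | h2 <;> rcases h01 q with h3 | h3
  · rw [h2, h3]
  · rw [h3] at k2
    exact absurd (k2.2 (k1.1 h2)) one_ne_zero
  · rw [h2] at k1
    exact absurd (k1.2 (k2.1 h3)) one_ne_zero
  · rw [h2, h3]

/-- the body of `S_BOXG` -/
def BoxG (t n : ℕ) (ε : ℝ) (M V : ℕ) : Prop := ∀ (s : Fin t → Sr)
  (f : Fin t → Bool) (ι : Type) [Fintype ι] [LinearOrder ι] (τ : ι → ℕ) (τ₂ : ι → ZMod 2)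
  (C : ι → Finset ℕ) (X : ι → ℕ) (κ : ℝ) (S₀ : Finset ℕ) (x : Fin t → Fin n → ZMod 2)
  (JR : Fin n → Finset ι) (β : Fin t → Bool),
  (∀ l, (s l).t = false → (s l).s = 0) → (∀ l, (s l).t = true → (s l).r ≠ 0 ∨ (s l).s ≠ 0) →
  (∀ l, f l = true → (s l).t = true ∧ (s l).r = 1 ∧ (s l).s = 0) →
  0 ≤ κ → (∀ i, (C i).card ≤ X i) → HB C X κ → S₀.Nonempty →
  (∀ v ∈ S₀, Po v) → (∀ l, ∀ v ∈ (s l).W, Po v) → (∀ l, Disjoint S₀ (s l).W) →
  (∀ i, ∀ p ∈ C i, Po p ∧ p ∉ S₀ ∧ (∀ l, p ∉ (s l).W) ∧ p % 4 = τ i ∧ nr p 2 = τ₂ i) →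
  (∀ i l, i ≠ l → Disjoint (C i) (C l)) →
  (∀ l, (((S₀ ∪ (s l).W).filter fun p => p % 4 = 3).card +
    (univ.filter fun i => τ i = 3).card + (if (s l).s = 0 then 0 else 1)) % 2 = 1) →
  (∀ l, f l = true → ∑ v ∈ S₀ ∪ (s l).W, nr v 2 + ∑ i, τ₂ i = 0) →
  M * ∑ l, ((S₀ ∪ (s l).W).card + 1) + V ≤ (univ.filter fun i => τ i = 3).card →
  (∀ r, M * ∑ l, ((S₀ ∪ (s l).W).card + 1) + V ≤ (JR r).card) →
  (∀ r, ∀ i ∈ JR r, τ i ≠ 3 ∧ ∀ p ∈ C i, ∀ l, dgG (f l) (s l) p = x l r) →
  (∀ l l', l ≠ l' → ∃ r, x l r ≠ x l' r) →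
  |(((Fintype.piFinset C).filter fun p => NdR s S₀ (univ.image p) ∧
        PatG s f β (S₀ ∪ univ.image p)).card : ℝ) -
      amR β * (((Fintype.piFinset C).filter fun p => NdR s S₀ (univ.image p)).card : ℝ)| ≤
    ε * (((Fintype.piFinset C).filter fun p => NdR s S₀ (univ.image p)).card : ℝ) +
    2 ^ ((∑ l, (2 * (S₀ ∪ (s l).W).card + 1)) * Fintype.card ι + (ps ι).card) *
      (κ * ∏ j, (X j : ℝ))

theorem boxG_of (h : S_BOXG) (t n : ℕ) {ε : ℝ} (hε : 0 < ε) : ∃ M V : ℕ, BoxG t n ε M V :=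
  h t n ε hε

/-- the box, for any decidable equality -/
theorem box_decG {t n : ℕ} {ε : ℝ} {M V : ℕ} (hb : BoxG t n ε M V) {s : Fin t → Sr}
    {f : Fin t → Bool} {ι : Type} [Fintype ι] [inst : DecidableEq ι] (lo : LinearOrder ι)
    {τ : ι → ℕ} {τ₂ : ι → ZMod 2} {C : ι → Finset ℕ} (X : ι → ℕ) (κ : ℝ) {S₀ : Finset ℕ} (x : Fin t → Fin n → ZMod 2)
    (JR : Fin n → Finset ι) (β : Fin t → Bool) (N : ℕ)
    (h1 : ∀ l, (s l).t = false → (s l).s = 0)
    (h2 : ∀ l, (s l).t = true → (s l).r ≠ 0 ∨ (s l).s ≠ 0)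
    (h2f : ∀ l, f l = true → (s l).t = true ∧ (s l).r = 1 ∧ (s l).s = 0)
    (hκ : 0 ≤ κ) (hCX : ∀ i, (C i).card ≤ X i) (hHB : HB C X κ) (hne : S₀.Nonempty)
    (hS₀ : ∀ v ∈ S₀, Po v) (hW : ∀ l, ∀ v ∈ (s l).W, Po v) (hdis : ∀ l, Disjoint S₀ (s l).W)
    (hC : ∀ i, ∀ p ∈ C i, Po p ∧ p ∉ S₀ ∧ (∀ l, p ∉ (s l).W) ∧ p % 4 = τ i ∧
      nr p 2 = τ₂ i)
    (hCd : ∀ i l, i ≠ l → Disjoint (C i) (C l))
    (hpar : ∀ l, (((S₀ ∪ (s l).W).filter fun p => p % 4 = 3).card +
      (univ.filter fun i => τ i = 3).card + (if (s l).s = 0 then 0 else 1)) % 2 = 1)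
    (hpar2 : ∀ l, f l = true → ∑ v ∈ S₀ ∪ (s l).W, nr v 2 + ∑ i, τ₂ i = 0)
    (h3 : M * ∑ l, ((S₀ ∪ (s l).W).card + 1) + V ≤ (univ.filter fun i => τ i = 3).card)
    (h4 : ∀ r, M * ∑ l, ((S₀ ∪ (s l).W).card + 1) + V ≤ (JR r).card)
    (h5 : ∀ r, ∀ i ∈ JR r, τ i ≠ 3 ∧ ∀ p ∈ C i, ∀ l, dgG (f l) (s l) p = x l r)
    (h6 : ∀ l l', l ≠ l' → ∃ r, x l r ≠ x l' r)
    (hN : (∑ l, (2 * (S₀ ∪ (s l).W).card + 1)) * Fintype.card ι +
      Fintype.card ι * Fintype.card ι ≤ N) :
    |(((Fintype.piFinset C).filter fun p => NdR s S₀ (univ.image p) ∧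
        PatG s f β (S₀ ∪ univ.image p)).card : ℝ) -
      amR β * (((Fintype.piFinset C).filter fun p => NdR s S₀ (univ.image p)).card : ℝ)| ≤
    ε * (((Fintype.piFinset C).filter fun p => NdR s S₀ (univ.image p)).card : ℝ) +
    2 ^ N * (κ * ∏ j, (X j : ℝ)) := by
  have e0 : inst = fun a b => lo.toDecidableEq a b := Subsingleton.elim _ _
  subst e0
  refine (hb s f ι τ τ₂ C X κ S₀ x JR β h1 h2 h2f hκ hCX hHB hne hS₀ hW hdis hC hCd hpar hpar2
    h3 h4 h5 h6).trans
    (add_le_add le_rfl ?_)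
  have h3 : 0 ≤ κ * ∏ j, (X j : ℝ) :=
    mul_nonneg hκ (Finset.prod_nonneg fun j _ => by positivity)
  refine mul_le_mul_of_nonneg_right ?_ h3
  refine pow_le_pow_right₀ (by norm_num) (le_trans ?_ hN)
  exact Nat.add_le_add_left ps_card _

/-- **The joint law on the regular sets.** -/
theorem t_KYG (hKG : S_KEYG) (hBX : S_BOXG) : S_KYG := by
  obtain ⟨C, hC1, hB⟩ := Pool.Agent.N19.GB.t_BIL
  refine ⟨C, hC1, ?_⟩
  intro t n s f u a cl x HY ε hε
  obtain ⟨MB, VB, hbx⟩ := boxG_of hBX t n hε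
  obtain ⟨w, hw⟩ : ∃ w : ℕ, w = ∑ l, (s l).W.card := ⟨_, rfl⟩
  refine ⟨MB * (w + t) + VB, MB * t, 3 * t + 2 * w + 2, ?_⟩
  intro β X z H k N κ hX hH hz hκ hκz hN
  rcases Nat.eq_zero_or_pos t with ht0 | tpos
  · subst ht0
    have e0 : amR β = 1 := by
      unfold amR
      rw [univ_eq_empty, prod_empty]
    have e1 : (fun S : Finset ℕ => NdR s (sm z S) (la z S) ∧ PatG s f β S) =
        fun S : Finset ℕ => NdR s (sm z S) (la z S) := by
      funext S
      exact propext ⟨fun h => h.1, fun h => ⟨h, fun l => l.elim0⟩⟩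
    have e2 : ((RK u a X z H k (KQG cl (MB * (w + 0) + VB) (MB * 0))).filter fun S =>
        NdR s (sm z S) (la z S) ∧ PatG s f β S) =
        (RK u a X z H k (KQG cl (MB * (w + 0) + VB) (MB * 0))).filter fun S =>
        NdR s (sm z S) (la z S) :=
      filter_congr fun S _ => ⟨fun h => h.1, fun h => ⟨h, fun l => l.elim0⟩⟩
    rw [e2, e0, one_mul, sub_self, abs_zero]
    have h3 : 0 ≤ Real.log X := Real.log_natCast_nonneg X
    positivity
  have hu4 : 4 ∣ u := dvd_trans (by norm_num) HY.h56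
  have hu1 : 1 ≤ u := HY.cp.pos
  have hz1 : 1 ≤ z := hu1.trans hz
  have hmain := hKG u a X z H k N (KQG cl (MB * (w + t) + VB) (MB * t))
    (fun S => NdR s (sm z S) (la z S)) (PatG s f β) (amR β)
    ε (3 ^ ((3 * t + 2 * w + 2) * (k ^ 2 + 1)) * κ) hu1 hX hH hz1 hN
    hε.le (by positivity) ?_
  · exact hmain
  intro S₀ J hk
  have hP0 : (0 : ℝ) < ((∏ p ∈ S₀, p : ℕ) : ℝ) := by
    exact_mod_cast Finset.prod_pos fun p hp => (cl_prime (hk.cl p hp)).pos
  have hErr : 0 ≤ (3 : ℝ) ^ ((3 * t + 2 * w + 2) * (k ^ 2 + 1)) * κ *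
      (X / ((∏ p ∈ S₀, p : ℕ) : ℝ)) := by positivity
  by_cases hemp : (Fintype.piFinset fun i : J => CC u z H i) = ∅
  · rw [hemp]
    simp only [filter_empty, card_empty, Nat.cast_zero, mul_zero, sub_zero, abs_zero, zero_add]
    exact hErr
  obtain ⟨p₀, hp₀⟩ := Finset.nonempty_iff_ne_empty.2 hemp
  rw [Fintype.mem_piFinset] at hp₀
  obtain ⟨hne, hq1, hq2⟩ := hk.kq
  have hcl := cl_keyR (a := a) hH hk.le hp₀ hk.cl hk.cls
  have c1 : (univ.filter fun e : J => e.1.2 % 4 = 3).card =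
      (J.filter fun e => e.2 % 4 = 3).card := card_subtR J fun e => e.2 % 4 = 3
  have hinj : Function.Injective (fun i : J => i.1.1) := by
    intro a b hab
    exact Subtype.ext (hk.inj (Finset.mem_coe.2 a.2) (Finset.mem_coe.2 b.2) hab)
  let lo : LinearOrder J := LinearOrder.lift' (fun i : J => i.1.1) hinj
  have hWz : ∀ q, z < q → ∀ l, q ∉ (s l).W := by
    intro q hq l h
    have h1 := Nat.le_of_dvd (by omega) (HY.W l q h).2
    omega
  have hdis : ∀ l, Disjoint S₀ (s l).W := by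
    intro l
    rw [Finset.disjoint_left]
    intro v hv h
    have h1 := (HY.W l v h).2
    refine HY.cp.nd (cl_prime (hk.cl v hv)) hcl.2 ?_ h1
    exact dvd_prod_of_mem _ (mem_union_left _ hv)
  have hmod : ∀ i : J, ∀ p ∈ CC u z H i, p % (7 * u) = i.1.2 ∧ p % 4 = i.1.2 % 4 := by
    intro i p hp
    obtain ⟨h1, h2, h3⟩ := (mem_CC hH).1 hp
    have h4 : p % (7 * u) = i.1.2 := congrArg Prod.snd h3
    refine ⟨h4, ?_⟩
    rw [← h4, Nat.mod_mod_of_dvd p (dvd_mul_of_dvd_right hu4 7)]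
  have hu8 : 8 ∣ u := dvd_trans (by norm_num) HY.h56
  have htwo : ∀ i : J, ∀ p ∈ CC u z H i, nr p 2 = nr (p₀ i) 2 := by
    intro i p hp
    refine nr_two ((mem_CC hH).1 hp).1 ((mem_CC hH).1 (hp₀ i)).1 ?_
    have e1 := (hmod i p hp).1
    have e2 := (hmod i _ (hp₀ i)).1
    rw [← Nat.mod_mod_of_dvd p (dvd_mul_of_dvd_right hu8 7), e1, ← e2,
      Nat.mod_mod_of_dvd _ (dvd_mul_of_dvd_right hu8 7)]
  have hSWs : ∑ l, ((S₀ ∪ (s l).W).card + 1) = t * S₀.card + (w + t) := by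
    rw [sum_congr rfl fun l _ => by rw [card_union_of_disjoint (hdis l)], sum_add_distrib,
      sum_add_distrib, sum_const, sum_const, card_univ, Fintype.card_fin, smul_eq_mul, hw]
    simp
    ring
  have hSWs2 : ∑ l, (2 * (S₀ ∪ (s l).W).card + 1) = 2 * (t * S₀.card + w) + t := by
    rw [sum_congr rfl fun l _ => by rw [card_union_of_disjoint (hdis l)], sum_add_distrib,
      ← mul_sum, sum_add_distrib, sum_const, sum_const, card_univ, Fintype.card_fin, smul_eq_mul,
      hw]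
    simp
  have hQ : MB * ∑ l, ((S₀ ∪ (s l).W).card + 1) + VB =
      MB * t * S₀.card + (MB * (w + t) + VB) := by
    rw [hSWs]
    ring
  have hJk : J.card ≤ k := by have := hk.card; omega
  have hSk : S₀.card ≤ k := by have := hk.card; omega
  have hbox := box_decG hbx (s := s) (f := f) lo (τ := fun e : J => e.1.2 % 4)
    (τ₂ := fun i : J => nr (p₀ i) 2)
    (C := fun i : J => CC u z H i) (fun i => XX H i.1.1) κ (S₀ := S₀) x
    (fun r => univ.filter fun i : J => i.1.2 = cl r) β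
    ((2 * (t * S₀.card + w) + t) * J.card + J.card * J.card)
    HY.ts HY.tr HY.fl hκ
    (fun i => by
      refine (Finset.card_filter_le _ _).trans ?_
      rw [Nat.card_Icc]
      omega)
    (hb_box hB hu4 hH hz1 hκ hκz) hne (fun v hv => po_of (hk.cl v hv)) (fun l v hv => (HY.W l v hv).1)
    hdis
    (fun i p hp => by
      obtain ⟨h3, h4, h5, h6⟩ := CC_facts hu4 hH hp
      refine ⟨po_of h3, fun h => ?_, hWz p h4, (hmod i p hp).2, htwo i p hp⟩
      have := hk.le p h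
      omega)
    (fun i l hil => CC_disj hH i l hil)
    (fun l => by
      have h1 := HY.par l _ hcl
      have h2 : ((S₀ ∪ univ.image p₀ ∪ (s l).W).filter fun p => p % 4 = 3).card =
          ((S₀ ∪ (s l).W).filter fun p => p % 4 = 3).card +
            (univ.filter fun e : J => e.1.2 % 4 = 3).card := by
        have h3 : S₀ ∪ univ.image p₀ ∪ (s l).W = (S₀ ∪ (s l).W) ∪ univ.image p₀ := by
          rw [union_assoc, union_comm (univ.image p₀), ← union_assoc]
        rw [h3, filter_union, card_union_of_disjoint]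
        · congr 1
          rw [filter_image, card_image_of_injOn]
          · congr 1
            ext i
            rw [mem_filter, mem_filter, (hmod i _ (hp₀ i)).2]
          · intro i _ j _ hij
            by_contra hne
            exact (Finset.disjoint_left.1 (CC_disj hH i j hne)) (hp₀ i)
              (by rw [hij]; exact hp₀ j)
        · rw [disjoint_left]
          intro q hq hq'
          rw [mem_filter, mem_union] at hq
          rw [mem_filter, mem_image] at hq'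
          obtain ⟨⟨i, -, rfl⟩, -⟩ := hq'
          have h5 := ((mem_CC hH).1 (hp₀ i)).2.1
          rcases hq.1 with h6 | h6
          · have := hk.le _ h6
            omega
          · exact hWz _ h5 l h6
      rw [h2] at h1
      exact h1)
    (fun l hl => by
      have h1 := HY.par2 l hl _ hcl
      have h3 : S₀ ∪ univ.image p₀ ∪ (s l).W = (S₀ ∪ (s l).W) ∪ univ.image p₀ := by
        rw [union_assoc, union_comm (univ.image p₀), ← union_assoc]
      rw [h3, sum_union, sum_image] at h1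
      · exact h1
      · intro i _ j _ hij
        by_contra hne
        exact (Finset.disjoint_left.1 (CC_disj hH i j hne)) (hp₀ i)
          (by rw [hij]; exact hp₀ j)
      · rw [disjoint_left]
        intro q hq hq'
        rw [mem_union] at hq
        rw [mem_image] at hq'
        obtain ⟨i, -, rfl⟩ := hq'
        have h5 := ((mem_CC hH).1 (hp₀ i)).2.1
        rcases hq with h6 | h6
        · have := hk.le _ h6
          omega
        · exact hWz _ h5 l h6)
    (by
      rw [hQ, c1]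
      exact hq1)
    (fun r => by
      have h1 : (univ.filter fun i : J => i.1.2 = cl r).card =
          (J.filter fun e => e.2 = cl r).card := card_subtR J fun e => e.2 = cl r
      rw [hQ, h1]
      exact hq2 r)
    (fun r i hi => by
      have hi2 : i.1.2 = cl r := (mem_filter.1 hi).2
      have key : ∀ q ∈ CC u z H i, Pr q ∧ q % (7 * u) = cl r := by
        intro q hq
        refine ⟨((mem_CC hH).1 hq).1, ?_⟩
        rw [← hi2]
        exact (hmod i q hq).1
      constructor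
      · obtain ⟨h2, h3⟩ := key _ (hp₀ i)
        have h4 := (HY.typ ⟨0, tpos⟩ r _ h2 h3).1
        intro h5
        have h6 : p₀ i % 4 = 3 := by
          rw [(hmod i _ (hp₀ i)).2]
          exact h5
        unfold uu at h4
        rw [if_pos h6] at h4
        exact one_ne_zero h4
      · intro q hq l
        obtain ⟨h2, h3⟩ := key q hq
        exact (HY.typ l r _ h2 h3).2)
    HY.sep
    (by
      rw [hSWs2, Fintype.card_coe])
  have e1 : (Fintype.piFinset fun i : J => CC u z H i).filter (fun p =>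
      NdR s (sm z (S₀ ∪ univ.image p)) (la z (S₀ ∪ univ.image p)) ∧
        PatG s f β (S₀ ∪ univ.image p)) =
      (Fintype.piFinset fun i : J => CC u z H i).filter fun p => NdR s S₀ (univ.image p) ∧
        PatG s f β (S₀ ∪ univ.image p) := by
    refine Finset.filter_congr fun p hp => ?_
    rw [Fintype.mem_piFinset] at hp
    rw [sm_fill hH hk.le hp, la_fill hH hk.le hp]
  have e2 : (Fintype.piFinset fun i : J => CC u z H i).filter (fun p =>
      NdR s (sm z (S₀ ∪ univ.image p)) (la z (S₀ ∪ univ.image p))) =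
      (Fintype.piFinset fun i : J => CC u z H i).filter fun p => NdR s S₀ (univ.image p) := by
    refine Finset.filter_congr fun p hp => ?_
    rw [Fintype.mem_piFinset] at hp
    rw [sm_fill hH hk.le hp, la_fill hH hk.le hp]
  rw [e1, e2]
  refine hbox.trans (add_le_add ?_ ?_)
  · have h4 : (((Fintype.piFinset fun i : J => CC u z H i).filter fun p =>
        NdR s S₀ (univ.image p)).card : ℝ) ≤
        ((Fintype.piFinset fun i : J => CC u z H i).card : ℝ) := by
      exact_mod_cast Finset.card_filter_le _ _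
    exact mul_le_mul_of_nonneg_left h4 hε.le
  · have hprod : ∏ j : J, (XX H j.1.1 : ℝ) ≤ X / ((∏ p ∈ S₀, p : ℕ) : ℝ) := by
      have h5 : ∏ j : J, (XX H j.1.1 : ℝ) = ((∏ k ∈ J, XX H k.1 : ℕ) : ℝ) := by
        rw [← Finset.prod_coe_sort J (fun k => XX H k.1)]
        push_cast
        rfl
      rw [h5, le_div_iff₀ hP0, mul_comm]
      exact_mod_cast hk.prod
    have hexp : (2 * (t * S₀.card + w) + t) * J.card + J.card * J.card ≤
        (3 * t + 2 * w + 2) * (k ^ 2 + 1) := by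
      have h6 : S₀.card * J.card ≤ k * k := Nat.mul_le_mul hSk hJk
      have h7 : J.card * J.card ≤ k * k := Nat.mul_le_mul hJk hJk
      have h8 : k ≤ k * k := Nat.le_mul_self k
      have h9 : J.card ≤ k * k := hJk.trans h8
      have h10 : t * (S₀.card * J.card) ≤ t * (k * k) := Nat.mul_le_mul_left _ h6
      have h11 : (2 * w + t) * J.card ≤ (2 * w + t) * (k * k) := Nat.mul_le_mul_left _ h9
      nlinarith
    have h5 : (2 : ℝ) ^ ((2 * (t * S₀.card + w) + t) * J.card + J.card * J.card) ≤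
        3 ^ ((3 * t + 2 * w + 2) * (k ^ 2 + 1)) := by
      calc (2 : ℝ) ^ ((2 * (t * S₀.card + w) + t) * J.card + J.card * J.card) ≤
            3 ^ ((2 * (t * S₀.card + w) + t) * J.card + J.card * J.card) :=
            pow_le_pow_left₀ (by norm_num) (by norm_num) _
        _ ≤ _ := pow_le_pow_right₀ (by norm_num) hexp
    have h6 : 0 ≤ ∏ j : J, (XX H j.1.1 : ℝ) := Finset.prod_nonneg fun j _ => Nat.cast_nonneg _
    calc (2 : ℝ) ^ ((2 * (t * S₀.card + w) + t) * J.card + J.card * J.card) *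
        (κ * ∏ j : J, (XX H j.1.1 : ℝ)) ≤
        3 ^ ((3 * t + 2 * w + 2) * (k ^ 2 + 1)) * (κ * (X / ((∏ p ∈ S₀, p : ℕ) : ℝ))) := by
          gcongr
      _ = _ := by ring

end Pool.Agent.L0h86.JS
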