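import Pool.Agent.L0h86.JS.StmN

/-!
# Project JS (helper86): the vanishing in the split case for all twists
-/

set_option autoImplicit false
set_option linter.unusedVariables false
set_option linter.unusedSectionVars false

open scoped Classical

namespace Pool.Agent.L0h86.JS

open Pool.Agent.N848.Q
open Pool.Agent.Y715.Gi (QB)
open Pool.Agent.R384 (vl Coc CobOn md md_zero md_cont md_mul md_eq vl_sub_one norm_two' norm_lt_one
  add_lt')
open Pool.Agent.Z384 (keyQ)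

/-- a homomorphism to `ZMod 2` which is trivial on a decomposition group above two is the character of
the square root of an integer which is `1` modulo `8` -/
theorem dich {h : G → ZMod 2} (hc : IsLocallyConstant h) (hm : ∀ σ τ, h (σ * τ) = h σ + h τ)
    {ι : QB →ₐ[ℚ] PadicAlgCl 2} (h2 : ∀ σ ∈ DD ι, h σ = 0) :
    ∃ (e : ℤ) (t : QB), Squarefree e.natAbs ∧ e % 8 = 1 ∧ t ^ 2 = e ∧
      ∀ σ : G, σ t = t ↔ h σ = 0 := by
  by_cases h0 : ∀ σ, h σ = 0
  · exact ⟨1, 1, by simp, by norm_num, by simp, fun σ => ⟨fun _ => h0 σ, fun _ => map_one σ⟩⟩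
  by_contra hno
  apply h0
  refine keyQ h hc hm (ι := ι) (fun σ hσ => h2 σ hσ) ?_
  intro e he he8 hne t ht
  by_contra hcon
  push Not at hcon
  have he0 : e ≠ 0 := by
    rintro rfl
    rw [Int.natAbs_zero] at he
    exact not_squarefree_zero he
  have ht0 : t ≠ 0 := by
    rintro rfl
    apply he0
    have h1 : (e : QB) = 0 := by rw [← ht]; ring
    exact_mod_cast h1
  have hor := root_or' ht
  obtain ⟨σ₂, h2'⟩ : ∃ σ : G, σ t ≠ t := by
    by_contra hall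
    push Not at hall
    exact hne (eq_one_of_fix he ht hall)
  have h2'' : σ₂ t = -t := (hor σ₂).resolve_left h2'
  have h01 : ∀ x : ZMod 2, x ≠ 0 → x = 1 := by decide
  have hk2 : h σ₂ = 1 := h01 _ fun h3 => h2' (hcon σ₂ h3)
  refine hno ⟨e, t, he, he8, ht, fun σ => ⟨fun h3 => ?_, hcon σ⟩⟩
  by_contra h4
  have h5 : h (σ * σ₂) = 0 := by
    rw [hm, h01 _ h4, hk2]
    decide
  have h6 := hcon _ h5
  rw [AlgEquiv.mul_apply, h2'', map_neg, h3] at h6
  exact ne_neg ht0 h6.symm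

section main

variable {χ : G →* ℤ_[2]ˣ} {r : QB} {m : ℤ}

/-- the local conditions at the odd primes -/
def Od (χ : G →* ℤ_[2]ˣ) (c : G → ℚ_[2]) : Prop :=
  ∀ (p : ℕ) [Fact p.Prime] (ι : QB →ₐ[ℚ] PadicAlgCl p), p ≠ 2 → CobOn χ (II ι : Set G) c

theorem cob_twist {D : Set G} {c : G → ℚ_[2]} (h : CobOn χ D c) (a y : ℚ_[2]) :
    CobOn χ D (fun σ => a * c σ + (vl χ σ - 1) * y) := by
  obtain ⟨z, hz⟩ := h
  refine ⟨a * z + y, fun σ hσ => ?_⟩
  show a * c σ + (vl χ σ - 1) * y = (vl χ σ - 1) * (a * z + y)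
  rw [hz σ hσ]
  ring

/-- the character modulo two of an integral class is trivial or the character of `r` -/
theorem two_cases (hL : S_LOC7) (cd : ChiQ χ r) (hr : r ^ 2 = m) (hm : Squarefree m.natAbs)
    (hC : Cr7 m) {c : G → ℚ_[2]} (hc : Coc χ c) (hint : ∀ σ, ‖c σ‖ ≤ 1) (hodd : Od χ c)
    {ι : QB →ₐ[ℚ] PadicAlgCl 2} (h2 : ∀ σ ∈ DD ι, md c σ = 0) :
    (∀ σ, md c σ = 0) ∨ ∀ σ : G, σ r = r ↔ md c σ = 0 := by
  obtain ⟨e, t, he, he8, ht, hk⟩ := dich (md_cont hc) (md_mul hc hint) h2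
  obtain ⟨b, hb, hs, hq⟩ := hL χ r m cd hr hm c hc hint hodd 1 e t (Or.inl rfl) he he8
    (by rw [ht, one_mul]) hk
  rcases hC.1 e b hb he8 hs (fun q hq1 hq2 => by
    have h3 := hq q hq1 hq2
    rw [one_mul, one_mul] at h3
    exact h3) with h | h
  · left
    intro σ
    rw [← hk σ]
    have h3 : t = 1 ∨ t = -1 := by
      have h4 : t ^ 2 = 1 ^ 2 := by rw [ht, h]; simp
      exact sq_eq_sq_iff_eq_or_eq_neg.1 h4
    rcases h3 with rfl | rfl
    · exact map_one σ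
    · rw [map_neg, map_one]
  · right
    intro σ
    rw [← hk σ]
    have h3 : t = r ∨ t = -r := sq_eq_sq_iff_eq_or_eq_neg.1 (by rw [ht, hr, h])
    rcases h3 with rfl | rfl
    · exact Iff.rfl
    · rw [map_neg, neg_inj]

/-- in the second case the class is congruent to `(χ - 1) / 2` modulo two -/
theorem sub_half (cd : ChiQ χ r) {c : G → ℚ_[2]} (hint : ∀ σ, ‖c σ‖ ≤ 1)
    (hk : ∀ σ : G, σ r = r ↔ md c σ = 0) (σ : G) : ‖c σ - (vl χ σ - 1) * 2⁻¹‖ ≤ 1 / 2 := by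
  have n2 : ‖(2 : ℚ_[2])⁻¹‖ = 2 := by
    rw [norm_inv, norm_two']
    norm_num
  apply norm_lt_one
  rcases cd.or σ with h | h
  · have h1 : ‖c σ‖ < 1 := md_zero.1 ((hk σ).1 h)
    have h2 : ‖(vl χ σ - 1) * 2⁻¹‖ < 1 := by
      rw [norm_mul, n2]
      have := cd.small h
      linarith
    have e : c σ - (vl χ σ - 1) * 2⁻¹ = c σ + -((vl χ σ - 1) * 2⁻¹) := by ring
    rw [e]
    exact add_lt' h1 (by rwa [norm_neg])
  · have h0 : ¬ ‖c σ‖ < 1 := by
      intro h1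
      have h2 := (hk σ).2 (md_zero.2 h1)
      rw [h] at h2
      exact ne_neg cd.r0 h2.symm
    have h1 : ‖c σ - 1‖ < 1 := (md_eq (hint σ)).1 h0
    have h2 : ‖(vl χ σ - 1) * 2⁻¹‖ = 1 := by
      rw [norm_mul, n2, cd.big h]
      norm_num
    have h3 : ‖(vl χ σ - 1) * 2⁻¹ - 1‖ < 1 := (md_eq h2.le).1 (by rw [h2]; exact lt_irrefl _)
    have e : c σ - (vl χ σ - 1) * 2⁻¹ = (c σ - 1) + -((vl χ σ - 1) * 2⁻¹ - 1) := by ring
    rw [e]
    exact add_lt' h1 (by rwa [norm_neg])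

theorem norm_pow_two (j : ℕ) : ‖(2 : ℚ_[2]) ^ j‖ = (1 / 2 : ℝ) ^ j := by
  rw [norm_pow, norm_two']

/-- the induction -/
theorem descent (hL : S_LOC7) (cd : ChiQ χ r) (hr : r ^ 2 = m) (hm : Squarefree m.natAbs)
    (hC : Cr7 m) {c : G → ℚ_[2]} (hc : Coc χ c) (hint : ∀ σ, ‖c σ‖ ≤ 1) (hodd : Od χ c)
    {σ₀ : G} (h1 : c σ₀ = 1) {ι : QB →ₐ[ℚ] PadicAlgCl 2} (h2 : ∀ σ ∈ DD ι, c σ = 0) {N : ℕ}
    (hN : ∀ σ ∈ DD ι, ‖vl χ σ - 1‖ ≤ (1 / 2 : ℝ) ^ N) :
    ∀ j : ℕ, j + 2 ≤ N → ∃ y : ℚ_[2], ‖y‖ = 2 ∧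
      ∀ σ, ‖c σ - (vl χ σ - 1) * y‖ ≤ (1 / 2 : ℝ) ^ (j + 1) := by
  have n2 : ‖(2 : ℚ_[2])⁻¹‖ = 2 := by
    rw [norm_inv, norm_two']
    norm_num
  intro j
  induction j with
  | zero =>
    intro _
    refine ⟨2⁻¹, n2, fun σ => ?_⟩
    rw [zero_add, pow_one]
    refine sub_half cd hint ?_ σ
    refine (two_cases hL cd hr hm hC hc hint hodd (ι := ι) fun σ hσ => ?_).resolve_left ?_
    · rw [md_zero, h2 σ hσ, norm_zero]
      norm_num
    · intro h
      have h3 := md_zero.1 (h σ₀)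
      rw [h1, norm_one] at h3
      exact lt_irrefl _ h3
  | succ j ih =>
    intro hj
    obtain ⟨y, hy, hyc⟩ := ih (by omega)
    have hp : (2 : ℚ_[2]) ^ (j + 1) ≠ 0 := pow_ne_zero _ two_ne_zero
    have nip : ‖((2 : ℚ_[2]) ^ (j + 1))⁻¹‖ = (2 : ℝ) ^ (j + 1) := by
      rw [norm_inv, norm_pow_two, one_div, inv_pow, inv_inv]
    -- the divided class
    set a : ℚ_[2] := ((2 : ℚ_[2]) ^ (j + 1))⁻¹ with ha
    have hc1 : Coc χ (fun σ => a * c σ + (vl χ σ - 1) * (-(a * y))) := hc.twist cd.cont a (-(a * y))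
    set c₁ : G → ℚ_[2] := fun σ => a * c σ + (vl χ σ - 1) * (-(a * y)) with hc₁
    have hval : ∀ σ, c₁ σ = a * (c σ - (vl χ σ - 1) * y) := by
      intro σ
      rw [hc₁]
      ring
    have hint1 : ∀ σ, ‖c₁ σ‖ ≤ 1 := by
      intro σ
      rw [hval, norm_mul, ha, nip]
      calc (2 : ℝ) ^ (j + 1) * ‖c σ - (vl χ σ - 1) * y‖ ≤ 2 ^ (j + 1) * (1 / 2) ^ (j + 1) :=
            mul_le_mul_of_nonneg_left (hyc σ) (by positivity)
        _ = 1 := by rw [← mul_pow]; norm_num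
    have hodd1 : Od χ c₁ := fun p _ κ hp => cob_twist (hodd p κ hp) a (-(a * y))
    have hD : ∀ σ ∈ DD ι, md c₁ σ = 0 := by
      intro σ hσ
      rw [md_zero, hval, h2 σ hσ, zero_sub, norm_mul, norm_neg, norm_mul, ha, nip, hy]
      have h3 := hN σ hσ
      have h4 : (1 / 2 : ℝ) ^ N ≤ (1 / 2) ^ (j + 3) :=
        pow_le_pow_of_le_one (by norm_num) (by norm_num) (by omega)
      have h5 : (2 : ℝ) ^ (j + 1) * ((1 / 2) ^ (j + 3) * 2) = 1 / 2 := by
        have e : (1 / 2 : ℝ) ^ (j + 3) = (1 / 2) ^ (j + 1) * (1 / 4) := by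
          rw [show j + 3 = (j + 1) + 2 by ring, pow_add]
          norm_num
        rw [e]
        have e2 : (2 : ℝ) ^ (j + 1) * (1 / 2) ^ (j + 1) = 1 := by
          rw [← mul_pow]
          norm_num
        linear_combination (1 / 2 : ℝ) * e2
      have h6 : (2 : ℝ) ^ (j + 1) * (‖vl χ σ - 1‖ * 2) ≤ 2 ^ (j + 1) * ((1 / 2) ^ (j + 3) * 2) :=
        mul_le_mul_of_nonneg_left (by linarith) (by positivity)
      rw [h5] at h6
      linarith
    rcases two_cases hL cd hr hm hC hc1 hint1 hodd1 hD with h3 | h3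
    · refine ⟨y, hy, fun σ => ?_⟩
      have h4 := norm_lt_one (md_zero.1 (h3 σ))
      rw [hval, norm_mul, ha, nip] at h4
      have h5 : ‖c σ - (vl χ σ - 1) * y‖ = (1 / 2) ^ (j + 1) *
          ((2 : ℝ) ^ (j + 1) * ‖c σ - (vl χ σ - 1) * y‖) := by
        rw [← mul_assoc, ← mul_pow]
        norm_num
      rw [h5, pow_succ (1 / 2 : ℝ) (j + 1)]
      exact mul_le_mul_of_nonneg_left h4 (by positivity)
    · refine ⟨y + 2 ^ j, ?_, fun σ => ?_⟩
      · have h4 : ‖(2 : ℚ_[2]) ^ j‖ ≤ 1 := by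
          rw [norm_pow_two]
          exact pow_le_one₀ (by norm_num) (by norm_num)
        have h5 : ‖(2 : ℚ_[2]) ^ j‖ ≠ ‖y‖ := by
          rw [hy]
          intro h6
          rw [h6] at h4
          norm_num at h4
        rw [Padic.add_eq_max_of_ne (Ne.symm h5), hy]
        exact max_eq_left (by linarith)
      · have h4 := sub_half cd hint1 h3 σ
        rw [hval] at h4
        have e : c σ - (vl χ σ - 1) * (y + 2 ^ j) = 2 ^ (j + 1) *
            (a * (c σ - (vl χ σ - 1) * y) - (vl χ σ - 1) * 2⁻¹) := by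
          have e2 : (2 : ℚ_[2]) ^ (j + 1) * a = 1 := by
            rw [ha]
            exact mul_inv_cancel₀ hp
          have e3 : (2 : ℚ_[2]) ^ (j + 1) * 2⁻¹ = 2 ^ j := by
            rw [pow_succ, mul_assoc, mul_inv_cancel₀ two_ne_zero, mul_one]
          linear_combination (-(c σ - (vl χ σ - 1) * y)) * e2 + (vl χ σ - 1) * e3
        rw [e, norm_mul, norm_pow_two, pow_succ (1 / 2 : ℝ) (j + 1)]
        exact mul_le_mul_of_nonneg_left h4 (by positivity)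

theorem dvd_norm (n : ℕ) (z : ℤ_[2]) : (2 : ℤ_[2]) ^ n ∣ z ↔ ‖(z : ℚ_[2])‖ ≤ (1 / 2 : ℝ) ^ n := by
  have h1 := PadicInt.norm_le_pow_iff_mem_span_pow (p := 2) z n
  rw [Ideal.mem_span_singleton] at h1
  rw [PadicInt.padic_norm_e_of_padicInt]
  have e : ((2 : ℕ) : ℤ_[2]) = 2 := by norm_num
  have e2 : (((2 : ℕ) : ℝ) ^ (-(n : ℤ))) = (1 / 2 : ℝ) ^ n := by
    rw [zpow_neg, zpow_natCast, one_div, inv_pow]
    norm_num
  rw [e, e2] at h1
  exact h1.symm

end main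

/-- **The vanishing in the split case, all twists.** -/
theorem t_VANN (hL : S_LOC7) : S_VANN := by
  intro χ r s₂ m N cd hr hm hm8 hs₂ hN2 hloc hC c hc hodd htwo
  obtain ⟨ι⟩ := exists_iota 2
  obtain ⟨y, hy⟩ := htwo ι
  refine ⟨y, ?_⟩
  by_contra hcon
  push Not at hcon
  obtain ⟨σ₁, hσ₁⟩ := hcon
  -- the cocycle which vanishes on the decomposition group
  have hc1 : Coc χ (fun σ => 1 * c σ + (vl χ σ - 1) * (-y)) := hc.twist cd.cont 1 (-y)
  set c₁ : G → ℚ_[2] := fun σ => 1 * c σ + (vl χ σ - 1) * (-y) with hc₁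
  obtain ⟨a, ha, hint0, σ₀, hσ₀⟩ := exists_scale hc1.cont (σ₁ := σ₁) (by
    intro h
    apply hσ₁
    rw [hc₁] at h
    linear_combination h)
  have hcc : Coc χ (fun σ => a * c₁ σ + (vl χ σ - 1) * 0) := hc1.twist cd.cont a 0
  set c' : G → ℚ_[2] := fun σ => a * c₁ σ + (vl χ σ - 1) * 0 with hc'
  have hint : ∀ σ, ‖c' σ‖ ≤ 1 := by
    intro σ
    rw [hc']
    simp only [mul_zero, add_zero]
    exact hint0 σ
  have hone : c' σ₀ = 1 := by
    rw [hc']
    simp only [mul_zero, add_zero]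
    exact hσ₀
  have hodd' : Od χ c' := fun p _ κ hp => cob_twist (cob_twist (hodd p κ hp) 1 (-y)) a 0
  have hstr' : ∀ σ ∈ DD ι, c' σ = 0 := by
    intro σ hσ
    rw [hc', hc₁]
    simp only [hy σ hσ]
    ring
  have hvl : ∀ σ, (((χ σ : ℤ_[2]) - 1 : ℤ_[2]) : ℚ_[2]) = vl χ σ - 1 := by
    intro σ
    unfold vl
    push_cast
    rfl
  have hNn : ∀ σ ∈ DD ι, ‖vl χ σ - 1‖ ≤ (1 / 2 : ℝ) ^ N := by
    intro σ hσ
    have h1 := (dvd_norm N _).1 (hloc ι σ hσ).1
    rwa [hvl] at h1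
  obtain ⟨z, hz, hzc⟩ := descent hL cd hr hm hC hcc hint hodd' hone hstr' hNn (N - 2) (by omega)
  have hN1 : N - 2 + 1 = N - 1 := by omega
  rw [hN1] at hzc
  -- the last class
  have nip : ‖((2 : ℚ_[2]) ^ (N - 1))⁻¹‖ = (2 : ℝ) ^ (N - 1) := by
    rw [norm_inv, norm_pow_two, one_div, inv_pow, inv_inv]
  set b : ℚ_[2] := ((2 : ℚ_[2]) ^ (N - 1))⁻¹ with hb
  have hc2 : Coc χ (fun σ => b * c' σ + (vl χ σ - 1) * (-(b * z))) := hcc.twist cd.cont b (-(b * z))
  set c₂ : G → ℚ_[2] := fun σ => b * c' σ + (vl χ σ - 1) * (-(b * z)) with hc₂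
  have hval : ∀ σ, c₂ σ = b * (c' σ - (vl χ σ - 1) * z) := by
    intro σ
    rw [hc₂]
    ring
  have hint2 : ∀ σ, ‖c₂ σ‖ ≤ 1 := by
    intro σ
    rw [hval, norm_mul, hb, nip]
    calc (2 : ℝ) ^ (N - 1) * ‖c' σ - (vl χ σ - 1) * z‖ ≤ 2 ^ (N - 1) * (1 / 2) ^ (N - 1) :=
          mul_le_mul_of_nonneg_left (hzc σ) (by positivity)
      _ = 1 := by rw [← mul_pow]; norm_num
  have hodd2 : Od χ c₂ := fun p _ κ hp => cob_twist (hodd' p κ hp) b (-(b * z))
  have s0 : s₂ ≠ 0 := by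
    rintro rfl
    rw [zero_pow two_ne_zero] at hs₂
    exact two_ne_zero hs₂.symm
  have sor : ∀ σ : G, σ s₂ = s₂ ∨ σ s₂ = -s₂ := root_or' (a := 2) (by rw [hs₂]; norm_num)
  have hD : ∀ σ ∈ DD ι, (md c₂ σ = 0 ↔ σ s₂ = s₂) := by
    intro σ hσ
    rw [← (hloc ι σ hσ).2, dvd_norm, hvl, md_zero, hval, hstr' σ hσ, zero_sub, norm_mul, norm_neg,
      norm_mul, hb, nip, hz]
    have e1 : (2 : ℝ) ^ (N - 1) * (‖vl χ σ - 1‖ * 2) = 2 ^ N * ‖vl χ σ - 1‖ := by
      have : (2 : ℝ) ^ N = 2 ^ (N - 1) * 2 := by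
        rw [← pow_succ]
        congr 1
        omega
      rw [this]
      ring
    rw [e1]
    have e2 : (2 : ℝ) ^ N * (1 / 2) ^ N = 1 := by
      rw [← mul_pow]
      norm_num
    constructor
    · intro h
      -- a norm less than `2 ^ (-N)` is at most `2 ^ (-N-1)`
      have h3 : ‖((2 : ℚ_[2]) ^ N)⁻¹ * (vl χ σ - 1)‖ < 1 := by
        rw [norm_mul, norm_inv, norm_pow_two, one_div, inv_pow, inv_inv]
        exact h
      have h4 := norm_lt_one h3
      rw [norm_mul, norm_inv, norm_pow_two, one_div, inv_pow, inv_inv] at h4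
      have h5 : ‖vl χ σ - 1‖ = (1 / 2) ^ N * (2 ^ N * ‖vl χ σ - 1‖) := by
        linear_combination (-‖vl χ σ - 1‖) * e2
      rw [h5, pow_succ]
      have h6 : (2 : ℝ) ^ N * ‖vl χ σ - 1‖ ≤ 1 / 2 := by
        rw [one_div]
        exact h4
      exact mul_le_mul_of_nonneg_left h6 (by positivity)
    · intro h
      have h3 : (2 : ℝ) ^ N * ‖vl χ σ - 1‖ ≤ 2 ^ N * (1 / 2) ^ (N + 1) :=
        mul_le_mul_of_nonneg_left h (by positivity)
      have h4 : (2 : ℝ) ^ N * (1 / 2) ^ (N + 1) = 1 / 2 := by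
        rw [pow_succ]
        linear_combination (1 / 2 : ℝ) * e2
      linarith
  -- the corrected homomorphism
  let ψ : G → ZMod 2 := fun σ => if es s0 sor σ = 1 then 0 else 1
  have hψc : IsLocallyConstant ψ := by
    have h1 : IsLocallyConstant (fun g : G => es s0 sor g) :=
      (IsLocallyConstant.iff_isOpen_fiber).2 fun u => es_open s0 sor u
    exact h1.comp (fun u : ℤˣ => if u = 1 then (0 : ZMod 2) else 1)
  have hψm : ∀ σ τ, ψ (σ * τ) = ψ σ + ψ τ := by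
    intro σ τ
    show (if es s0 sor (σ * τ) = 1 then (0 : ZMod 2) else 1) =
      (if es s0 sor σ = 1 then 0 else 1) + (if es s0 sor τ = 1 then 0 else 1)
    rw [map_mul]
    rcases Int.units_eq_one_or (es s0 sor σ) with h1 | h1 <;>
      rcases Int.units_eq_one_or (es s0 sor τ) with h2 | h2 <;> rw [h1, h2] <;> decide
  have hψ1 : ∀ σ : G, σ s₂ = s₂ → ψ σ = 0 := fun σ h => if_pos ((es_one s0 sor).2 h)
  have hψ2 : ∀ σ : G, σ s₂ = -s₂ → ψ σ = 1 := fun σ h => by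
    show (if es s0 sor σ = 1 then (0 : ZMod 2) else 1) = 1
    rw [(es_neg s0 sor).2 h]
    decide
  have h01 : ∀ x : ZMod 2, x = 0 ∨ x = 1 := by decide
  have hlc : IsLocallyConstant (fun σ => md c₂ σ + ψ σ) := (md_cont hc2).add hψc
  obtain ⟨e, t, he, he8, ht, hk⟩ := dich (h := fun σ => md c₂ σ + ψ σ) hlc
    (fun σ τ => by
      show md c₂ (σ * τ) + ψ (σ * τ) = (md c₂ σ + ψ σ) + (md c₂ τ + ψ τ)
      rw [md_mul hc2 hint2, hψm]
      ring) (ι := ι) (fun σ hσ => by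
      show md c₂ σ + ψ σ = 0
      rcases sor σ with h | h
      · rw [hψ1 σ h, (hD σ hσ).2 h, add_zero]
      · have h1 : md c₂ σ ≠ 0 := by
          intro h2
          have h3 := (hD σ hσ).1 h2
          rw [h] at h3
          exact ne_neg s0 h3.symm
        rw [hψ2 σ h, (h01 _).resolve_left h1]
        decide)
  have he0 : e ≠ 0 := by
    rintro rfl
    rw [Int.natAbs_zero] at he
    exact not_squarefree_zero he
  have ht0 : t ≠ 0 := by
    rintro rfl
    apply he0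
    have h1 : (e : QB) = 0 := by rw [← ht]; ring
    exact_mod_cast h1
  have hst : s₂ * t ≠ 0 := mul_ne_zero s0 ht0
  have hk' : ∀ σ : G, σ (s₂ * t) = s₂ * t ↔ md c₂ σ = 0 := by
    intro σ
    have h1 : σ t = t ↔ md c₂ σ + ψ σ = 0 := hk σ
    rcases sor σ with h | h <;> rcases root_or' ht σ with h' | h'
    · rw [map_mul, h, h']
      have h2 := h1.1 h'
      rw [hψ1 σ h, add_zero] at h2
      exact ⟨fun _ => h2, fun _ => rfl⟩
    · rw [map_mul, h, h', mul_neg]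
      constructor
      · intro h2
        exact absurd h2.symm (ne_neg hst)
      · intro h2
        have h3 := h1.2 (by rw [hψ1 σ h, add_zero]; exact h2)
        rw [h'] at h3
        exact absurd h3.symm (ne_neg ht0)
    · rw [map_mul, h, h', neg_mul]
      constructor
      · intro h2
        exact absurd h2.symm (ne_neg hst)
      · intro h2
        have h3 := h1.1 h'
        rw [h2, hψ2 σ h, zero_add] at h3
        exact absurd h3 one_ne_zero
    · rw [map_mul, h, h', neg_mul_neg]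
      refine ⟨fun _ => ?_, fun _ => rfl⟩
      rcases h01 (md c₂ σ) with h2 | h2
      · exact h2
      · exfalso
        have h3 := h1.2 (by rw [h2, hψ2 σ h]; decide)
        rw [h'] at h3
        exact ne_neg ht0 h3.symm
  obtain ⟨b', hb', hs', hq'⟩ := hL χ r m cd hr hm c₂ hc2 hint2 hodd2 2 e (s₂ * t) (Or.inr rfl) he
    he8 (by
      rw [mul_pow, hs₂, ht]
      push_cast
      rfl) hk'
  exact hC.2 e b' hb' he8 hs' hq'

end Pool.Agent.L0h86.JS
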