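import Pool.Agent.L0h86.JR.Stm

/-!
# Project JS (helper86): the joint law of the 4-ranks in all residue classes, statements

The systems of the project JR, and the systems of the split case: the squarefree part `D` of `d_l m`
is `7` modulo `8`, so that two splits in `ℚ(√-D)`. The criterion is then: there are no factorizations
of `-D` and of `-4 D` besides the trivial ones (`Cr7`). The matrix is the Rédei matrix bordered by the
symbols of two; after a row operation it is a matrix of the same kind as in JR, with the vertex two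
and with one small prime multiplied by two (`sy7`), so the linear algebra (`S_LAT`) is the same.
-/

set_option autoImplicit false
set_option linter.unusedVariables false

open scoped Classical

namespace Pool.Agent.L0h86.JS

open Finset
open Pool.Agent.Y703.CX (sm la jj XX eL zz kk)
open Pool.Agent.Y703.CQ (nr sg)
open Pool.Agent.N973.ND (Pr ty uu SA)
open Pool.Agent.N916.GB (Po sy Vt Gd Gv ps sx pt eta HB Nd)
open Pool.Agent.L0h74.EV (SE Cl n2 NdE)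
open Pool.Agent.L0h74.EV.KEY (ph CC)
open Pool.Agent.L0h74.AP (Cp)
open Pool.Agent.L0h2.P (RK S_KEYG)
open Pool.Agent.L0h86.JR

/-! ### The systems -/

/-- the good sets of the split case: the solutions of the bordered system are trivial -/
def Gd7 (V : Finset ℕ) : Prop := ∀ (x : ℕ → ZMod 2) (α : ZMod 2),
  (∀ q ∈ V, ∑ p ∈ V, (x p + x q) * nr p q + α * nr q 2 = 0) → ∑ p ∈ V, x p * nr p 2 = 0 →
  (∀ p ∈ V, ∀ q ∈ V, x p = x q) ∧ α = 0

/-- all the solutions of the system with the matrix `M` are constant -/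
def GdM (V : Finset ℕ) (M : ℕ → ℕ → ZMod 2) : Prop :=
  ∀ x : ℕ → ZMod 2, (∀ q ∈ V, ∑ p ∈ V, (x p + x q) * M q p = 0) → ∀ p ∈ V, ∀ q ∈ V, x p = x q

/-- the matrix of the split case: `v₀` is multiplied by two -/
noncomputable def sy7 (v₀ q p : ℕ) : ZMod 2 :=
  sy 1 0 q p + (if q = v₀ ∧ p ≠ 2 then nr p 2 else 0) + (if p = v₀ ∧ q ≠ 2 then nr q 2 else 0)

/-- EQ7: the bordered system is a system with constant solutions. -/
def S_EQ7 : Prop := ∀ (V : Finset ℕ) (v₀ : ℕ), (∀ p ∈ V, Po p) → v₀ ∈ V →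
  ∑ p ∈ V, nr p 2 = 0 → (Gd7 V ↔ GdM (insert 2 V) (sy7 v₀))

/-- the good sets; `f = true` is the split case -/
def GdG (f : Bool) (s : Sr) (S : Finset ℕ) : Prop := if f = true then Gd7 (S ∪ s.W) else GdR s S

/-- the symbol of the fixed part at `p` -/
noncomputable def dgG (f : Bool) (s : Sr) (p : ℕ) : ZMod 2 :=
  if f = true then ∑ v ∈ s.W, nr v p else dgR s p

/-- the pattern of the good systems -/
def PatG {t : ℕ} (s : Fin t → Sr) (f : Fin t → Bool) (β : Fin t → Bool) (S : Finset ℕ) : Prop :=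
  ∀ l, (GdG (f l) (s l) S ↔ β l = true)

/-- the hypotheses on the systems -/
structure HyG {t n : ℕ} (s : Fin t → Sr) (f : Fin t → Bool) (u a : ℕ) (cl : Fin n → ℕ)
    (x : Fin t → Fin n → ZMod 2) : Prop where
  cp : Cp u a
  h56 : 56 ∣ u
  ts : ∀ l, (s l).t = false → (s l).s = 0
  tr : ∀ l, (s l).t = true → (s l).r ≠ 0 ∨ (s l).s ≠ 0
  fl : ∀ l, f l = true → (s l).t = true ∧ (s l).r = 1 ∧ (s l).s = 0
  W : ∀ l, ∀ v ∈ (s l).W, Po v ∧ v ∣ u
  par : ∀ l S, Cl u a S → (((S ∪ (s l).W).filter fun p => p % 4 = 3).card +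
    (if (s l).s = 0 then 0 else 1)) % 2 = 1
  par2 : ∀ l, f l = true → ∀ S, Cl u a S → ∑ p ∈ S ∪ (s l).W, nr p 2 = 0
  clc : ∀ r, cl r < 7 * u ∧ (cl r).Coprime (7 * u)
  typ : ∀ l r p, Pr p → p % (7 * u) = cl r → uu p = 0 ∧ dgG (f l) (s l) p = x l r
  sep : ∀ l l', l ≠ l' → ∃ r, x l r ≠ x l' r

/-! ### Boxes and keys -/

/-- BOXG: the joint law in a box. -/
def S_BOXG : Prop := ∀ (t n : ℕ) (ε : ℝ), 0 < ε → ∃ M V : ℕ, ∀ (s : Fin t → Sr)
  (f : Fin t → Bool) (ι : Type) [Fintype ι] [LinearOrder ι] (τ : ι → ℕ) (τ₂ : ι → ZMod 2)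
  (C : ι → Finset ℕ) (X : ι → ℕ) (κ : ℝ) (S₀ : Finset ℕ) (x : Fin t → Fin n → ZMod 2)
  (JR : Fin n → Finset ι) (β : Fin t → Bool),
  (∀ l, (s l).t = false → (s l).s = 0) → (∀ l, (s l).t = true → (s l).r ≠ 0 ∨ (s l).s ≠ 0) →
  (∀ l, f l = true → (s l).t = true ∧ (s l).r = 1 ∧ (s l).s = 0) →
  0 ≤ κ → (∀ i, (C i).card ≤ X i) → HB C X κ → S₀.Nonempty →
  (∀ v ∈ S₀, Po v) → (∀ l, ∀ v ∈ (s l).W, Po v) → (∀ l, Disjoint S₀ (s l).W) →
  (∀ i, ∀ p ∈ C i, Po p ∧ p ∉ S₀ ∧ (∀ l, p ∉ (s l).W) ∧ p % 4 = τ i ∧ nr p 2 = τ₂ i) →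
  (∀ i l, i ≠ l → Disjoint (C i) (C l)) →
  (∀ l, (((S₀ ∪ (s l).W).filter fun p => p % 4 = 3).card +
    (univ.filter fun i => τ i = 3).card + (if (s l).s = 0 then 0 else 1)) % 2 = 1) →
  (∀ l, f l = true → ∑ v ∈ S₀ ∪ (s l).W, nr v 2 + ∑ i, τ₂ i = 0) →
  M * ∑ l, ((S₀ ∪ (s l).W).card + 1) + V ≤ (univ.filter fun i => τ i = 3).card →
  (∀ r, M * ∑ l, ((S₀ ∪ (s l).W).card + 1) + V ≤ (JR r).card) →
  (∀ r, ∀ i ∈ JR r, τ i ≠ 3 ∧ ∀ p ∈ C i, ∀ l, dgG (f l) (s l) p = x l r) →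
  (∀ l l', l ≠ l' → ∃ r, x l r ≠ x l' r) →
  |(((Fintype.piFinset C).filter fun p => NdR s S₀ (univ.image p) ∧
        PatG s f β (S₀ ∪ univ.image p)).card : ℝ) -
      amR β * (((Fintype.piFinset C).filter fun p => NdR s S₀ (univ.image p)).card : ℝ)| ≤
    ε * (((Fintype.piFinset C).filter fun p => NdR s S₀ (univ.image p)).card : ℝ) +
    2 ^ ((∑ l, (2 * (S₀ ∪ (s l).W).card + 1)) * Fintype.card ι + (ps ι).card) *
      (κ * ∏ j, (X j : ℝ))

/-- the condition on the key -/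
def KQG {n : ℕ} (cl : Fin n → ℕ) (V M : ℕ) (S₀ : Finset ℕ) (J : Finset (ℕ × ℕ)) : Prop :=
  S₀.Nonempty ∧ KQR cl V M S₀ J

/-- KYG: the joint law on the regular sets. -/
def S_KYG : Prop := ∃ C : ℝ, 1 ≤ C ∧ ∀ (t n : ℕ) (s : Fin t → Sr) (f : Fin t → Bool) (u a : ℕ)
  (cl : Fin n → ℕ) (x : Fin t → Fin n → ZMod 2), HyG s f u a cl x → ∀ ε : ℝ, 0 < ε →
  ∃ V M K : ℕ, ∀ (β : Fin t → Bool) (X z H k N : ℕ) (κ : ℝ), 1 ≤ X → 1 ≤ H → u ≤ z → 0 ≤ κ →
  C ≤ κ ^ 12 * z → (H : ℝ) * Real.log X < N →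
  |(((RK u a X z H k (KQG cl V M)).filter fun S =>
        NdR s (sm z S) (la z S) ∧ PatG s f β S).card : ℝ) -
      amR β * (((RK u a X z H k (KQG cl V M)).filter fun S =>
        NdR s (sm z S) (la z S)).card : ℝ)| ≤
    ε * ((RK u a X z H k (KQG cl V M)).card : ℝ) +
    (9 * (u * N) + 9 : ℝ) ^ k * (3 ^ (K * (k ^ 2 + 1)) * κ) * (X * (1 + Real.log X))

/-! ### The law in a class -/

/-- SM0: few sets have no small prime. -/
def S_SM0 : Prop := ∀ ε : ℝ, 0 < ε → ∃ X₀ : ℕ, ∀ X : ℕ, X₀ ≤ X →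
  (((SA X).filter fun S => sm (zz X) S = ∅).card : ℝ) ≤ ε * X

/-- DG: the joint law in a class. -/
def S_DG : Prop := ∀ (t n : ℕ) (s : Fin t → Sr) (f : Fin t → Bool) (u a : ℕ) (cl : Fin n → ℕ)
  (x : Fin t → Fin n → ZMod 2), HyG s f u a cl x → ∀ β : Fin t → Bool, ∀ ε : ℝ, 0 < ε →
  ∀ᶠ X : ℕ in Filter.atTop,
    |(((SE u a X).filter (PatG s f β)).card : ℝ) - amR β * ((SE u a X).card : ℝ)| ≤ ε * X

/-! ### The numbers -/

/-- the split case: `g m = 7` modulo `8`, for `m = a` modulo `u` -/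
def flG (g a : ℕ) : Bool := decide (g % 2 = 1 ∧ (g * a) % 8 = 7)

/-- the system of `ℚ(√(-g m))`, `m = a` modulo `u` -/
def sysG (g a : ℕ) : Sr := if flG g a = true then ⟨true, 1, 0, g.primeFactors⟩ else sysR g a

/-- HYG: the systems satisfy the hypotheses. -/
def S_HYG : Prop := ∀ (u a : ℕ), Cp u a → 56 ∣ u → ∀ (t : ℕ) (g : Fin t → ℕ),
  (∀ l, Squarefree (g l)) → (∀ l p, p.Prime → p ∣ g l → p ∣ u) → Function.Injective g →
  ∃ (n : ℕ) (cl : Fin n → ℕ) (x : Fin t → Fin n → ZMod 2),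
    HyG (fun l => sysG (g l) a) (fun l => flG (g l) a) u a cl x

/-- the criterion of the split case: the only factorizations `m = a b` with `a = 1` modulo `8`,
`a > 0` if `m > 0`, such that `a` is a square modulo the odd prime divisors of `b` and conversely are
the two trivial ones, and there is no such factorization `4 m = (2 a) (2 b)` -/
def Cr7 (m : ℤ) : Prop :=
  (∀ a b : ℤ, m = a * b → a % 8 = 1 → (0 < m → 0 < a) →
    (∀ q : ℕ, q.Prime → q ≠ 2 → (((q : ℤ) ∣ b → IsSquare (a : ZMod q)) ∧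
      ((q : ℤ) ∣ a → IsSquare (b : ZMod q)))) → a = 1 ∨ a = m) ∧
  ∀ a b : ℤ, m = a * b → a % 8 = 1 → (0 < m → 0 < a) →
    ¬ ∀ q : ℕ, q.Prime → q ≠ 2 → (((q : ℤ) ∣ b → IsSquare ((2 * a : ℤ) : ZMod q)) ∧
      ((q : ℤ) ∣ a → IsSquare ((2 * b : ℤ) : ZMod q)))

/-- the criterion in all cases -/
def CrG (m : ℤ) : Prop := if m % 8 = 1 then Cr7 m else Cr m

/-- TRG: the translation in the split case. -/
def S_TRG : Prop := (∀ (u a g m : ℕ), Cp u a → 56 ∣ u → Squarefree g →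
  (∀ p, p.Prime → p ∣ g → p ∣ u) → Squarefree m → m % u = a → flG g a = true →
  (GdG true (sysG g a) m.primeFactors ↔ Gd7 (g * m).primeFactors) ∧ (g * m) % 8 = 7) ∧
  ∀ D : ℕ, Squarefree D → D % 8 = 7 → (Gd7 D.primeFactors ↔ Cr7 (-(D : ℤ)))

/-- the family: the squarefree numbers of a residue class -/
def FamG (q r m : ℕ) : Prop := Squarefree m ∧ m % q = r % q

/-- LAWG: **the joint law, in all residue classes and for all finite sets of twists.** -/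
def S_LAWG : Prop := ∀ (t : ℕ) (d : Fin t → ℕ), (∀ l, 0 < d l) →
  Function.Injective (fun l => sqf (d l)) → ∀ q r : ℕ, 0 < q → (∃ m₀, FamG q r m₀) →
  ∀ β : Fin t → Bool, Filter.Tendsto (fun X : ℕ =>
    (nR (FamG q r) (fun m => ∀ l, (CrG (-(sqf (d l * m) : ℤ)) ↔ β l = true)) X : ℝ) /
    (nR (FamG q r) (fun _ => True) X : ℝ)) Filter.atTop (nhds (amR β))

end Pool.Agent.L0h86.JS
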