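import Pool.Agent.N848.Q.K
import Pool.Agent.L0h86.JS.Stm

/-!
# Project JS (helper86): the vanishing in the split case, statements
-/

set_option autoImplicit false
set_option linter.unusedVariables false

open scoped Classical

namespace Pool.Agent.L0h86.JS

open Pool.Agent.N848.Q
open Pool.Agent.Y715.Gi (QB)
open Pool.Agent.R384 (vl Coc CobOn)

/-- VAN7: the vanishing for a character whose quadratic field is split at two. -/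
def S_VAN7 : Prop := ∀ (χ : G →* ℤ_[2]ˣ) (r s₂ : QB) (m : ℤ), ChiQ χ r → r ^ 2 = m →
  Squarefree m.natAbs → m % 8 = 1 → s₂ ^ 2 = 2 →
  (∀ (ι : QB →ₐ[ℚ] PadicAlgCl 2), ∀ σ ∈ DD ι,
    ((8 : ℤ_[2]) ∣ (χ σ : ℤ_[2]) - 1 ↔ σ s₂ = s₂)) → Cr7 m →
  ∀ c : G → ℚ_[2], Coc χ c →
  (∀ (p : ℕ) [Fact p.Prime] (ι : QB →ₐ[ℚ] PadicAlgCl p), p ≠ 2 → CobOn χ (II ι : Set G) c) →
  (∀ ι : QB →ₐ[ℚ] PadicAlgCl 2, CobOn χ (DD ι : Set G) c) →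
  ∃ y : ℚ_[2], ∀ σ, c σ = (vl χ σ - 1) * y

/-- VMQ7: multiquadratic fields. -/
def S_VMQ7 : Prop := ∀ s : ℤ → QB, (∀ a, s a ≠ 0) →
  (∀ a (σ : G), σ (s a) = s a ∨ σ (s a) = -s a) → ∀ A : Finset ℤ, (∀ a ∈ A, s a ^ 2 = a) →
  ∀ k : ℤ, Odd k →
  (∀ T ⊆ A, ∀ e f : ℤ, ∏ a ∈ T, a = e * f ^ 2 → Squarefree e → CrG (-e)) →
  VanOn (cyc ^ k) (fixs s A)

end Pool.Agent.L0h86.JS
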