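import Pool.Agent.L0h86.JS.VANN
import Pool.Agent.L0h36.JS.LOC7
import Pool.Agent.L0h63.JS.VMQN

/-!
# Project JS (helper86): the vanishing for multiquadratic fields, all twists
-/

set_option autoImplicit false

namespace Pool.Agent.L0h86.JS

theorem vann : S_VANN := t_VANN Pool.Agent.L0h36.JS.t_LOC7

theorem vmqn : S_VMQN := Pool.Agent.L0h63.JS.t_VMQN vann

end Pool.Agent.L0h86.JS
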