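import Pool.Agent.L0h86.JS.StmQ

/-!
# Project JS (helper86): the vanishing in the split case for all twists, statements

`S_VANN` is `S_VAN7` for characters which are `1` modulo `2^N` on the decomposition groups; the case
`N = 2` is `S_VAN7`.
-/

set_option autoImplicit false
set_option linter.unusedVariables false

open scoped Classical

namespace Pool.Agent.L0h86.JS

open Pool.Agent.N848.Q
open Pool.Agent.Y715.Gi (QB)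
open Pool.Agent.R384 (vl Coc CobOn md)
open Pool.Agent.L0h86.JR (Cr)

/-- LOC7: the character modulo two of a class: if it is the character of `√(w e)`, `w = 1, 2`,
`e = 1` modulo `8`, then `e` divides `m`, it is positive if `m` is, and the local conditions hold. -/
def S_LOC7 : Prop := ∀ (χ : G →* ℤ_[2]ˣ) (r : QB) (m : ℤ), ChiQ χ r → r ^ 2 = m →
  Squarefree m.natAbs → ∀ c : G → ℚ_[2], Coc χ c → (∀ σ, ‖c σ‖ ≤ 1) →
  (∀ (p : ℕ) [Fact p.Prime] (ι : QB →ₐ[ℚ] PadicAlgCl p), p ≠ 2 → CobOn χ (II ι : Set G) c) →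
  ∀ (w e : ℤ) (t : QB), (w = 1 ∨ w = 2) → Squarefree e.natAbs → e % 8 = 1 →
  t ^ 2 = ((w * e : ℤ) : QB) → (∀ σ : G, σ t = t ↔ md c σ = 0) →
  ∃ b : ℤ, m = e * b ∧ (0 < m → 0 < e) ∧ ∀ q : ℕ, q.Prime → q ≠ 2 →
    (((q : ℤ) ∣ b → IsSquare ((w * e : ℤ) : ZMod q)) ∧
      ((q : ℤ) ∣ e → IsSquare ((w * b : ℤ) : ZMod q)))

/-- VANN: the vanishing for a character whose quadratic field is split at two, `χ = 1` modulo `2^N`
on the decomposition groups. -/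
def S_VANN : Prop := ∀ (χ : G →* ℤ_[2]ˣ) (r s₂ : QB) (m : ℤ) (N : ℕ), ChiQ χ r → r ^ 2 = m →
  Squarefree m.natAbs → m % 8 = 1 → s₂ ^ 2 = 2 → 2 ≤ N →
  (∀ (ι : QB →ₐ[ℚ] PadicAlgCl 2), ∀ σ ∈ DD ι, (2 : ℤ_[2]) ^ N ∣ (χ σ : ℤ_[2]) - 1 ∧
    ((2 : ℤ_[2]) ^ (N + 1) ∣ (χ σ : ℤ_[2]) - 1 ↔ σ s₂ = s₂)) → Cr7 m →
  ∀ c : G → ℚ_[2], Coc χ c →
  (∀ (p : ℕ) [Fact p.Prime] (ι : QB →ₐ[ℚ] PadicAlgCl p), p ≠ 2 → CobOn χ (II ι : Set G) c) →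
  (∀ ι : QB →ₐ[ℚ] PadicAlgCl 2, CobOn χ (DD ι : Set G) c) →
  ∃ y : ℚ_[2], ∀ σ, c σ = (vl χ σ - 1) * y

/-- the criterion in all cases, `m = 1` included -/
def CrE (m : ℤ) : Prop := if m % 8 = 1 ∧ m ≠ 1 then Cr7 m else Cr m

/-- VMQN: multiquadratic fields, all twists. -/
def S_VMQN : Prop := ∀ s : ℤ → QB, (∀ a, s a ≠ 0) →
  (∀ a (σ : G), σ (s a) = s a ∨ σ (s a) = -s a) → ∀ A : Finset ℤ, (∀ a ∈ A, s a ^ 2 = a) →
  ∀ k : ℤ, k ≠ 0 →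
  (∀ T ⊆ A, ∀ e f : ℤ, ∏ a ∈ T, a = e * f ^ 2 → Squarefree e →
    (Even k → CrE e) ∧ (Odd k → CrE (-e))) →
  VanOn (cyc ^ k) (fixs s A)

end Pool.Agent.L0h86.JS
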